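import Pool.Agent.Helper20.RG.St3
import Pool.Agent.Helper79.LM.M_TC

/-!
# Project RG, module FIN: finitely many pieces
-/

set_option autoImplicit false

open MeasureTheory Set Filter Topology
open scoped ENNReal NNReal RealInnerProductSpace

namespace Pool.Agent.Helper17.RG

open Pool.Agent.Helper20.RG
open Pool.Agent.Helper68.LM (Pl)
open Pool.Agent.Helper61.Lacunary (LpBounded arclength avg lacMax)

theorem graph_lip_FIN {φ τ : ℝ → ℝ} (h : Graph φ τ) (s t : ℝ) : |φ s - φ t| ≤ |s - t| := by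
  have key : ∀ s t : ℝ, s ≤ t → |φ s - φ t| ≤ |s - t| := by
    intro s t hst
    obtain ⟨h1, h2⟩ := h.2 s t hst
    have h3 := abs_le.1 (h.1 s)
    have h4 := abs_le.1 (h.1 t)
    have h5 : 0 ≤ t - s := by linarith
    rw [abs_sub_comm (φ s), abs_sub_comm s, abs_of_nonneg h5, abs_le]
    constructor <;> nlinarith
  rcases le_total s t with hst | hst
  · exact key s t hst
  · rw [abs_sub_comm (φ s), abs_sub_comm s]
    exact key t s hst

theorem piece_lip_FIN {P u v : Pl} {φ τ : ℝ → ℝ} (hu : ‖u‖ = 1) (hv : ‖v‖ = 1) (h : Graph φ τ) :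
    LipschitzWith 2 (fun t : ℝ => P + t • u + φ t • v) := by
  refine LipschitzWith.of_dist_le_mul fun s t => ?_
  rw [dist_eq_norm, Real.dist_eq]
  have h1 : P + s • u + φ s • v - (P + t • u + φ t • v) = (s - t) • u + (φ s - φ t) • v := by
    rw [sub_smul, sub_smul]
    abel
  rw [h1]
  refine (norm_add_le _ _).trans ?_
  rw [norm_smul, norm_smul, hu, hv, Real.norm_eq_abs, Real.norm_eq_abs, mul_one, mul_one]
  have h2 := graph_lip_FIN h s t
  have h3 : ((2 : ℝ≥0) : ℝ) = 2 := rfl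
  rw [h3]
  linarith

theorem piece_dom_FIN {P u v : Pl} {φ τ : ℝ → ℝ} (ℓ : ℝ) (hu : ‖u‖ = 1) (hv : ‖v‖ = 1)
    (h : Graph φ τ) (B : Set Pl) (hB : MeasurableSet B) :
    (μH[1] : Measure Pl) ((fun t : ℝ => P + t • u + φ t • v) '' Icc 0 ℓ ∩ B) ≤
      2 * pme P u v ℓ φ B := by
  have hGL := piece_lip_FIN (P := P) hu hv h
  have hGc : AEMeasurable (fun t : ℝ => P + t • u + φ t • v) (volume.restrict (Icc 0 ℓ)) :=
    hGL.continuous.aemeasurable
  have hval : pme P u v ℓ φ B =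
      volume (Icc 0 ℓ ∩ (fun t : ℝ => P + t • u + φ t • v) ⁻¹' B) := by
    unfold pme
    rw [Measure.map_apply_of_aemeasurable hGc hB, Measure.restrict_apply' measurableSet_Icc,
      inter_comm]
  rw [hval, ← image_inter_preimage]
  have h4 := (hGL.lipschitzOnWith (s := Icc 0 ℓ ∩ (fun t : ℝ => P + t • u + φ t • v) ⁻¹' B)
    ).hausdorffMeasure_image_le (zero_le_one (α := ℝ))
  rw [hausdorffMeasure_real, ENNReal.rpow_one] at h4
  exact h4

theorem hFIN : StFIN := by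
  classical
  intro Ω p n P u v ℓ φ τ _ hp hpc hnull hmax
  have hp0 : 0 < p := by linarith
  have hp1 : 0 < 1 / p := by positivity
  choose! C hC using hmax
  obtain ⟨ν, hν⟩ : ∃ ν : ℕ → Measure Pl, ν = fun i =>
    if i < n then pme (P i) (u i) (v i) (ℓ i) (φ i) else 0 := ⟨_, rfl⟩
  have hνi : ∀ i, i < n → ν i = pme (P i) (u i) (v i) (ℓ i) (φ i) := fun i hi => by
    rw [hν]; simp only [if_pos hi]
  have hν0 : ∀ i, ¬ i < n → ν i = 0 := fun i hi => by
    rw [hν]; simp only [if_neg hi]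
  have hdom : arclength Ω ≤ Measure.sum (fun i => (2 : ℝ≥0∞) • ν i) := by
    rw [Measure.le_iff]
    intro B hB
    rw [Measure.sum_apply _ hB]
    unfold arclength
    rw [Measure.restrict_apply hB]
    have hsub : B ∩ frontier Ω ⊆ (⋃ i ∈ {i : ℕ | i < n},
        ((fun t => P i + t • u i + φ i t • v i) '' Icc 0 (ℓ i) ∩ B)) ∪
        (frontier Ω \ ⋃ i ∈ {i : ℕ | i < n}, (fun t => P i + t • u i + φ i t • v i) '' Icc 0 (ℓ i)) := by
      intro y hy
      by_cases h : y ∈ ⋃ i ∈ {i : ℕ | i < n}, (fun t => P i + t • u i + φ i t • v i) '' Icc 0 (ℓ i)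
      · left
        rw [mem_iUnion₂] at h ⊢
        obtain ⟨i, hi, hi2⟩ := h
        exact ⟨i, hi, hi2, hy.1⟩
      · right
        exact ⟨hy.2, h⟩
    have h1 := (measure_mono (μ := (μH[1] : Measure Pl)) hsub).trans (measure_union_le _ _)
    rw [hnull, add_zero] at h1
    refine h1.trans ((measure_iUnion_le _).trans (ENNReal.tsum_le_tsum fun i => ?_))
    by_cases hi : i < n
    · have h2 : ((2 : ℝ≥0∞) • ν i) B = 2 * pme (P i) (u i) (v i) (ℓ i) (φ i) B := by
        rw [Measure.smul_apply, smul_eq_mul, hνi i hi]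
      rw [h2]
      have h3 : (⋃ (_ : i ∈ {i : ℕ | i < n}),
          ((fun t => P i + t • u i + φ i t • v i) '' Icc 0 (ℓ i) ∩ B)) ⊆
          (fun t => P i + t • u i + φ i t • v i) '' Icc 0 (ℓ i) ∩ B := iUnion_subset fun _ => le_rfl
      exact (measure_mono h3).trans
        (piece_dom_FIN (ℓ i) (hpc i hi).nu (hpc i hi).nv (hpc i hi).graph B hB)
    · have h2 : (⋃ (_ : i ∈ {i : ℕ | i < n}),
          ((fun t => P i + t • u i + φ i t • v i) '' Icc 0 (ℓ i) ∩ B)) = ∅ := by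
        apply iUnion_eq_empty.2
        intro h
        exact absurd h hi
      rw [h2, measure_empty]
      exact bot_le
  have hνfin : ∀ i, IsFiniteMeasure (ν i) := by
    intro i
    by_cases hi : i < n
    · rw [hνi i hi]
      unfold pme
      infer_instance
    · rw [hν0 i hi]
      infer_instance
  obtain ⟨K, hK⟩ : ∃ K : ℕ → ℝ, K = fun i => 2 * (C i) ^ (1 / p) := ⟨_, rfl⟩
  have hK0 : ∀ i, i < n → 0 ≤ K i := fun i hi => by
    rw [hK]
    have := (hC i hi).1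
    positivity
  refine ⟨∑ i ∈ Finset.range n, K i, fun f hf => ?_⟩
  obtain ⟨h, hhm, hhf, hhae⟩ := Pool.Agent.Helper79.LM.exists_maj_TC f hf.aestronglyMeasurable
  have hnorm : (∫⁻ x, h x ^ p) ^ (1 / p) = eLpNorm f (ENNReal.ofReal p) volume := by
    rw [eLpNorm_eq_lintegral_rpow_enorm_toReal (by simpa using hp0) ENNReal.ofReal_ne_top,
      ENNReal.toReal_ofReal hp0.le]
    congr 1
    apply lintegral_congr_ae
    filter_upwards [hhae] with x hx
    rw [hx]
  obtain ⟨F, hF⟩ : ∃ F : ℕ → Pl → ℝ≥0∞, F = fun i x =>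
    2 * ⨆ k : ℤ, ∫⁻ y, h (x - (2 : ℝ) ^ k • y) ∂(ν i) := ⟨_, rfl⟩
  have hFm0 : ∀ i, Measurable (fun x => ⨆ k : ℤ, ∫⁻ y, h (x - (2 : ℝ) ^ k • y) ∂(ν i)) := by
    intro i
    have := hνfin i
    apply Measurable.iSup
    intro k
    have h1 : Measurable (fun z : Pl × Pl => h (z.1 - (2 : ℝ) ^ k • z.2)) :=
      hhm.comp (measurable_fst.sub ((measurable_const_smul ((2 : ℝ) ^ k)).comp measurable_snd))
    exact h1.lintegral_prod_right'
  have hFm : ∀ i, Measurable (F i) := fun i => by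
    rw [hF]; exact (hFm0 i).const_mul 2
  have hle : ∀ x, lacMax Ω f x ≤ ∑' i, F i x := by
    intro x
    unfold lacMax
    apply iSup_le
    intro k
    have h1 : ENNReal.ofReal |avg Ω k f x| ≤ ∫⁻ y, h (x - (2 : ℝ) ^ k • y) ∂(arclength Ω) := by
      have h2 : ENNReal.ofReal |avg Ω k f x| = ‖avg Ω k f x‖ₑ := by
        rw [← Real.norm_eq_abs, ofReal_norm]
      rw [h2]
      unfold avg
      exact (enorm_integral_le_lintegral_enorm _).trans (lintegral_mono fun y => hhf _)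
    refine h1.trans ((lintegral_mono' hdom le_rfl).trans ?_)
    rw [lintegral_sum_measure]
    apply ENNReal.tsum_le_tsum
    intro i
    rw [lintegral_smul_measure, smul_eq_mul, hF]
    exact mul_le_mul_right (le_iSup (fun k : ℤ => ∫⁻ y, h (x - (2 : ℝ) ^ k • y) ∂(ν i)) k) _
  have hF0 : ∀ i, ¬ i < n → (∫⁻ x, F i x ^ p) ^ (1 / p) = 0 := by
    intro i hi
    have h1 : ∀ x, F i x = 0 := by
      intro x
      rw [hF]
      show 2 * ⨆ k : ℤ, ∫⁻ y, h (x - (2 : ℝ) ^ k • y) ∂(ν i) = 0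
      rw [hν0 i hi]
      simp
    have h2 : ∫⁻ x, F i x ^ p = 0 := by
      have h3 : ∀ x, F i x ^ p = 0 := fun x => by
        rw [h1 x, ENNReal.zero_rpow_of_pos hp0]
      rw [lintegral_congr h3, lintegral_zero]
    rw [h2, ENNReal.zero_rpow_of_pos hp1]
  have hbound : ∀ i, i < n → (∫⁻ x, F i x ^ p) ^ (1 / p) ≤
      ENNReal.ofReal (K i) * (∫⁻ x, h x ^ p) ^ (1 / p) := by
    intro i hi
    obtain ⟨hC0, hCi⟩ := hC i hi
    have h1 := hCi h hhm
    rw [← hνi i hi] at h1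
    have h2 : ∫⁻ x, F i x ^ p ≤ 2 ^ p * (ENNReal.ofReal (C i) * ∫⁻ x, h x ^ p) := by
      have h3 : ∀ x, F i x ^ p = 2 ^ p *
          (⨆ k : ℤ, ∫⁻ y, h (x - (2 : ℝ) ^ k • y) ∂(ν i)) ^ p := by
        intro x
        rw [hF]
        exact ENNReal.mul_rpow_of_nonneg _ _ hp0.le
      rw [lintegral_congr h3, lintegral_const_mul _ ((hFm0 i).pow_const p)]
      exact mul_le_mul_right h1 _
    refine (ENNReal.rpow_le_rpow h2 hp1.le).trans ?_
    rw [ENNReal.mul_rpow_of_nonneg _ _ hp1.le, ENNReal.mul_rpow_of_nonneg _ _ hp1.le, ← mul_assoc]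
    refine mul_le_mul_left ?_ _
    have h6 : ((2 : ℝ≥0∞) ^ p) ^ (1 / p) = ENNReal.ofReal 2 := by
      rw [← ENNReal.rpow_mul, mul_one_div, div_self hp0.ne', ENNReal.rpow_one]
      norm_num
    rw [h6, ENNReal.ofReal_rpow_of_nonneg hC0.le hp1.le,
      ← ENNReal.ofReal_mul (by norm_num : (0 : ℝ) ≤ 2), hK]
  calc (∫⁻ x, lacMax Ω f x ^ p) ^ (1 / p)
      ≤ (∫⁻ x, (∑' i, F i x) ^ p) ^ (1 / p) := by
        apply ENNReal.rpow_le_rpow _ hp1.le
        exact lintegral_mono fun x => ENNReal.rpow_le_rpow (hle x) hp0.le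
    _ ≤ ∑' i, (∫⁻ x, F i x ^ p) ^ (1 / p) := Pool.Agent.Helper79.LM.mink_TC p hp.le F hFm
    _ = ∑ i ∈ Finset.range n, (∫⁻ x, F i x ^ p) ^ (1 / p) := by
        apply tsum_eq_sum
        intro i hi
        rw [Finset.mem_range] at hi
        exact hF0 i hi
    _ ≤ ∑ i ∈ Finset.range n, ENNReal.ofReal (K i) * (∫⁻ x, h x ^ p) ^ (1 / p) :=
        Finset.sum_le_sum fun i hi => hbound i (Finset.mem_range.1 hi)
    _ = ENNReal.ofReal (∑ i ∈ Finset.range n, K i) * eLpNorm f (ENNReal.ofReal p) volume := by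
        rw [← Finset.sum_mul, hnorm, ENNReal.ofReal_sum_of_nonneg
          (fun i hi => hK0 i (Finset.mem_range.1 hi))]

end Pool.Agent.Helper17.RG
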