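import Pool.Agent.Helper69.RG.St
import Pool.Agent.Helper22.NL.StZ

/-! # Project RG, module R3: the coefficients of the box are close to those of the lattice -/

set_option autoImplicit false

open scoped BigOperators ENNReal
open Pool.LE Pool.NL

namespace Pool.RG

namespace R3M

theorem abs_tsum (f : ℕ → ℝ) :
    ENNReal.ofReal |∑' m, f m| ≤ ∑' m, ENNReal.ofReal |f m| := by
  by_cases h : Summable f
  · have h5 : Summable fun m => |f m| := h.abs
    rw [← ENNReal.ofReal_tsum_of_nonneg (fun _ => abs_nonneg _) h5]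
    refine ENNReal.ofReal_le_ofReal ?_
    exact norm_tsum_le_tsum_norm (f := f) h5
  · rw [tsum_eq_zero_of_not_summable h]
    simp

theorem tail {A : Type} (R : ℕ) (f : A → ℕ → ENNReal) :
    (1 + (R : ENNReal)) ^ 3 * ∑' u : A, ∑' m : ℕ, (if R ≤ m then f u m else 0) ≤
      ∑' u : A, ∑' m : ℕ, (1 + (m : ENNReal)) ^ 3 * f u m := by
  rw [← ENNReal.tsum_mul_left]
  refine ENNReal.tsum_le_tsum fun u => ?_
  rw [← ENNReal.tsum_mul_left]
  refine ENNReal.tsum_le_tsum fun m => ?_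
  by_cases h : R ≤ m
  · rw [if_pos h]
    gcongr
  · rw [if_neg h, mul_zero]
    exact zero_le

/-- one point of the box -/
theorem point (hFin : StFin) (hG : StGcoef) (hBox : StBox) (hBn : StBn) {d n R : ℕ} {p : ℝ}
    (hp : 0 ≤ p) (hp1 : p ≤ 1) (hZ : G3Z d p) (hE : G3 (ES (Bn d n)) p) (v : Zd d)
    (hv : ∀ y ∈ bx d R, v + y ∈ Bn d n) :
    (Summable fun x : Zd d => |gT (ES (Bn d n)) p v x - gS d p (x - v)|) ∧
    ∑' x : Zd d, |gT (ES (Bn d n)) p v x - gS d p (x - v)| ≤ (1 / 2) / (1 + (R : ℝ)) ^ 3 := by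
  classical
  obtain ⟨-, -, hlat, -, -⟩ := hBn d n
  obtain ⟨-, hbx, -, -, h5, h6, h7, h8, -, h10, -, hcard, -⟩ := hBox d
  set E := ES (Bn d n) with hEdef
  have hmono : ∀ (m : ℕ) (x : Zd d), m ≤ R → x ∈ bx d m → x ∈ bx d R := by
    intro m x hm hx
    rw [hbx] at hx ⊢
    intro i
    exact (hx i).trans (by exact_mod_cast hm)
  have hco : ∀ (m : ℕ) (u : Zd d), m ≤ R → gL E p v u m = gm d p m (u - v) := by
    intro m u hm
    refine hG d p m m E v u le_rfl hlat ?_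
    intro e he
    unfold trE at he
    rw [Finset.mem_map] at he
    obtain ⟨e0, he0, rfl⟩ := he
    induction e0 using Sym2.ind with
    | _ y z =>
      unfold Eb at he0
      rw [h8] at he0
      have e1 : (Equiv.addLeft v).toEmbedding.sym2Map s(y, z) = s(v + y, v + z) := rfl
      rw [e1, hEdef, h8]
      exact ⟨hv y (hmono m y hm he0.1), hv z (hmono m z hm he0.2.1), (h5 _ _ v).1 he0.2.2⟩
  obtain hF := hFin d E p hp hp1 hlat hE v v
  have hsL : ∀ u : Zd d, Summable (fun m => gL E p v u m) := fun u => (hF.1 v u).of_abs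
  have hsZ : ∀ x : Zd d, Summable (fun m => gm d p m x) := by
    intro x
    have h1 : ∑' m : ℕ, ENNReal.ofReal |hm d p m x| ≠ ⊤ := by
      refine ne_top_of_le_ne_top ENNReal.ofReal_ne_top (le_trans ?_ hZ)
      refine le_trans ?_ (ENNReal.le_tsum x)
      refine ENNReal.tsum_le_tsum fun m => ?_
      refine le_mul_of_one_le_left zero_le ?_
      exact one_le_pow₀ le_self_add
    have h2 := ENNReal.summable_toReal h1
    have h3 : Summable (fun m => hm d p m x) := by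
      refine Summable.of_abs (h2.congr fun q => ?_)
      rw [ENNReal.toReal_ofReal (abs_nonneg _)]
    rw [← summable_nat_add_iff 1] at h3 ⊢
    refine h3.congr fun m => ?_
    unfold hm
    rw [if_neg (by omega), sub_zero]
  let G : Zd d → ℕ → ENNReal := fun u m =>
    ENNReal.ofReal |gL E p v u m - ind (m = 0 ∧ u = v)| + ENNReal.ofReal |hm d p m (u - v)|
  let H : Zd d → ENNReal := fun u => ∑' m : ℕ, if R ≤ m then G u m else 0
  have hd0 : ∀ (m : ℕ) (u : Zd d), gL E p v u m - gm d p m (u - v) =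
      (gL E p v u m - ind (m = 0 ∧ u = v)) - hm d p m (u - v) := by
    intro m u
    unfold hm ind
    by_cases h : m = 0 ∧ u = v
    · rw [if_pos h, if_pos ⟨h.1, sub_eq_zero.2 h.2⟩]
      ring
    · rw [if_neg h, if_neg fun h' => h ⟨h'.1, sub_eq_zero.1 h'.2⟩]
      ring
  have hA : ∀ u : Zd d, ENNReal.ofReal |gT E p v u - gS d p (u - v)| ≤ H u := by
    intro u
    unfold gT gS
    rw [← (hsL u).tsum_sub (hsZ (u - v))]
    refine (abs_tsum _).trans (ENNReal.tsum_le_tsum fun m => ?_)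
    by_cases hm' : R ≤ m
    · rw [if_pos hm']
      change _ ≤ ENNReal.ofReal |gL E p v u m - ind (m = 0 ∧ u = v)| +
        ENNReal.ofReal |hm d p m (u - v)|
      rw [← ENNReal.ofReal_add (abs_nonneg _) (abs_nonneg _), hd0]
      exact ENNReal.ofReal_le_ofReal (abs_sub _ _)
    · rw [if_neg hm', hco m u (by omega)]
      simp
  have hH : (1 + (R : ENNReal)) ^ 3 * ∑' u : Zd d, H u ≤ ENNReal.ofReal (1 / 2) := by
    refine (tail R G).trans ?_
    have e1 : ∀ (u : Zd d) (m : ℕ), (1 + (m : ENNReal)) ^ 3 * G u m =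
        (1 + (m : ENNReal)) ^ 3 * ENNReal.ofReal |gL E p v u m - ind (m = 0 ∧ u = v)| +
        (1 + (m : ENNReal)) ^ 3 * ENNReal.ofReal |hm d p m (u - v)| := fun u m => mul_add _ _ _
    simp only [e1, ENNReal.tsum_add]
    have e2 : (∑' u : Zd d, ∑' m : ℕ, (1 + (m : ENNReal)) ^ 3 *
        ENNReal.ofReal |hm d p m (u - v)|) = ∑' u : Zd d, ∑' m : ℕ, (1 + (m : ENNReal)) ^ 3 *
        ENNReal.ofReal |hm d p m u| :=
      (Equiv.subRight v).tsum_eq (fun u => ∑' m : ℕ, (1 + (m : ENNReal)) ^ 3 *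
        ENNReal.ofReal |hm d p m u|)
    rw [e2]
    refine (add_le_add (hE v) hZ).trans ?_
    rw [← ENNReal.ofReal_add (by norm_num) (by norm_num)]
    norm_num
  have hfin : (∑' x : Zd d, ENNReal.ofReal |gT E p v x - gS d p (x - v)|) ≤
      ENNReal.ofReal ((1 / 2) / (1 + (R : ℝ)) ^ 3) := by
    refine (ENNReal.tsum_le_tsum hA).trans ?_
    have hR0 : (0 : ℝ) ≤ R := Nat.cast_nonneg R
    have e : (1 + (R : ENNReal)) ^ 3 = ENNReal.ofReal ((1 + (R : ℝ)) ^ 3) := by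
      rw [ENNReal.ofReal_pow (by positivity),
        ENNReal.ofReal_add zero_le_one hR0, ENNReal.ofReal_one, ENNReal.ofReal_natCast]
    rw [e] at hH
    rw [ENNReal.ofReal_div_of_pos (by positivity)]
    rw [ENNReal.le_div_iff_mul_le (Or.inl (by
      rw [Ne, ENNReal.ofReal_eq_zero, not_le]
      positivity)) (Or.inl ENNReal.ofReal_ne_top), mul_comm]
    exact hH
  have hsum : Summable (fun x : Zd d => |gT E p v x - gS d p (x - v)|) := by
    have h2 := ENNReal.summable_toReal (ne_top_of_le_ne_top ENNReal.ofReal_ne_top hfin)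
    refine h2.congr fun b => ?_
    rw [ENNReal.toReal_ofReal (abs_nonneg _)]
  refine ⟨hsum, ?_⟩
  rw [← ENNReal.ofReal_tsum_of_nonneg (fun _ => abs_nonneg _) hsum] at hfin
  rwa [ENNReal.ofReal_le_ofReal_iff (by positivity)] at hfin

/-- sums over the box of a function of one coordinate -/
theorem sum_coord (d n : ℕ) (i : Fin d) (f : ℤ → ℝ) :
    ∑ b ∈ Bn d n, f (b i) = (n : ℝ) ^ (d - 1) * ∑ j ∈ Finset.Ico (0 : ℤ) n, f j := by
  classical
  have h := Finset.prod_univ_sum (fun _ : Fin d => Finset.Ico (0 : ℤ) n)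
    (fun (k : Fin d) (j : ℤ) => if k = i then f j else 1)
  have h1 : ∀ b : Fin d → ℤ, ∏ k : Fin d, (if k = i then f (b k) else 1) = f (b i) := by
    intro b
    rw [Finset.prod_ite_eq' Finset.univ i (fun k => f (b k)), if_pos (Finset.mem_univ i)]
  have h2 : ∑ b ∈ Bn d n, f (b i) = ∑ b ∈ Fintype.piFinset (fun _ : Fin d => Finset.Ico (0 : ℤ) n),
      ∏ k : Fin d, (if k = i then f (b k) else 1) := by
    refine Finset.sum_congr rfl fun b _ => ?_
    rw [h1]
  rw [h2, ← h, ← Finset.mul_prod_erase Finset.univ _ (Finset.mem_univ i), mul_comm]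
  congr 1
  · have h3 : ∀ k ∈ Finset.univ.erase i, (∑ j ∈ Finset.Ico (0 : ℤ) n, if k = i then f j else 1) = (n : ℝ) := by
      intro k hk
      rw [Finset.sum_congr rfl fun j _ => if_neg (Finset.ne_of_mem_erase hk)]
      simp
    rw [Finset.prod_congr rfl h3, Finset.prod_const, Finset.card_erase_of_mem (Finset.mem_univ i),
      Finset.card_univ, Fintype.card_fin]
  · exact Finset.sum_congr rfl fun j _ => if_pos rfl

theorem sum_cube (n : ℕ) : ∑ j ∈ Finset.Ico (0 : ℤ) n, 1 / (1 + (j : ℝ)) ^ 3 ≤ 2 := by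
  have h1 : ∑ j ∈ Finset.Ico (0 : ℤ) n, 1 / (1 + (j : ℝ)) ^ 3 =
      ∑ j ∈ Finset.range n, 1 / (1 + (j : ℝ)) ^ 3 := by
    refine Finset.sum_nbij' (fun j => j.toNat) (fun k => (k : ℤ)) ?_ ?_ ?_ ?_ ?_
    · intro j hj
      rw [Finset.mem_Ico] at hj
      rw [Finset.mem_range]
      omega
    · intro k hk
      rw [Finset.mem_range] at hk
      rw [Finset.mem_Ico]
      omega
    · intro j hj
      rw [Finset.mem_Ico] at hj
      exact Int.toNat_of_nonneg hj.1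
    · intro k _
      exact Int.toNat_natCast k
    · intro j hj
      rw [Finset.mem_Ico] at hj
      have : ((j.toNat : ℤ) : ℝ) = (j : ℝ) := by rw [Int.toNat_of_nonneg hj.1]
      have h2 : ((j.toNat : ℕ) : ℝ) = (j : ℝ) := by exact_mod_cast this
      rw [h2]
  have h2 : ∀ m : ℕ, ∑ j ∈ Finset.range m, 1 / (1 + (j : ℝ)) ^ 3 ≤ 2 - 2 / (1 + (m : ℝ)) := by
    intro m
    induction m with
    | zero => norm_num
    | succ m ih =>
      rw [Finset.sum_range_succ]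
      have hm : (0 : ℝ) ≤ m := Nat.cast_nonneg m
      have h3 : 1 / (1 + (m : ℝ)) ^ 3 ≤ 2 / (1 + (m : ℝ)) - 2 / (1 + ((m + 1 : ℕ) : ℝ)) := by
        push_cast
        rw [div_sub_div _ _ (by positivity) (by positivity), div_le_div_iff₀ (by positivity) (by positivity)]
        nlinarith [sq_nonneg (m : ℝ), mul_nonneg hm hm, mul_nonneg (mul_nonneg hm hm) hm]
      linarith
  rw [h1]
  refine (h2 n).trans ?_
  have : (0 : ℝ) ≤ 2 / (1 + (n : ℝ)) := by positivity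
  linarith

theorem sum_cube' (n : ℕ) : ∑ j ∈ Finset.Ico (0 : ℤ) n, 1 / (1 + (((n : ℤ) - 1 - j : ℤ) : ℝ)) ^ 3 ≤ 2 := by
  refine le_trans (le_of_eq ?_) (sum_cube n)
  refine Finset.sum_nbij' (fun j => (n : ℤ) - 1 - j) (fun j => (n : ℤ) - 1 - j) ?_ ?_ ?_ ?_ ?_
  · intro j hj
    rw [Finset.mem_Ico] at hj ⊢
    omega
  · intro j hj
    rw [Finset.mem_Ico] at hj ⊢
    omega
  · intro j _
    omega
  · intro j _
    omega
  · intro j _
    rfl

/-- the distance to the complement of the box -/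
theorem exists_R (hBox : StBox) (hBn : StBn) {d n : ℕ} (hd : 1 ≤ d) {b : Zd d} (hb : b ∈ Bn d n) :
    ∃ R : ℕ, (∀ y ∈ bx d R, b + y ∈ Bn d n) ∧
      1 / (1 + (R : ℝ)) ^ 3 ≤ ∑ i : Fin d, (1 / (1 + (b i : ℝ)) ^ 3 +
        1 / (1 + (((n : ℤ) - 1 - b i : ℤ) : ℝ)) ^ 3) := by
  classical
  obtain ⟨-, -, -, hmem, -⟩ := hBn d n
  obtain ⟨-, hbx, -⟩ := hBox d
  have hb' := (hmem b).1 hb
  have : Nonempty (Fin d) := ⟨⟨0, hd⟩⟩
  obtain ⟨i0, -, hi0⟩ := Finset.exists_min_image (Finset.univ : Finset (Fin d))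
    (fun i => min (b i) ((n : ℤ) - 1 - b i)) Finset.univ_nonempty
  set m := min (b i0) ((n : ℤ) - 1 - b i0) with hm
  have hm0 : 0 ≤ m := by
    have := hb' i0
    rw [hm]
    exact le_min this.1 (by omega)
  have hpos : ∀ i : Fin d, (0 : ℝ) ≤ 1 / (1 + (b i : ℝ)) ^ 3 +
      1 / (1 + (((n : ℤ) - 1 - b i : ℤ) : ℝ)) ^ 3 := by
    intro i
    have h1 : (0 : ℝ) ≤ (b i : ℝ) := by exact_mod_cast (hb' i).1
    have h2 : (0 : ℝ) ≤ (((n : ℤ) - 1 - b i : ℤ) : ℝ) := by
      have := (hb' i).2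
      have h3 : 0 ≤ (n : ℤ) - 1 - b i := by omega
      exact_mod_cast h3
    positivity
  refine ⟨m.toNat, ?_, ?_⟩
  · intro y hy
    rw [hbx] at hy
    rw [hmem]
    intro i
    have h1 := hy i
    rw [Int.toNat_of_nonneg hm0] at h1
    have h2 := hi0 i (Finset.mem_univ i)
    have h3 := (le_min_iff.1 h2)
    rw [abs_le] at h1
    rw [Pi.add_apply]
    constructor
    · have := h3.1
      have := h1.1
      omega
    · have := h3.2
      have := h1.2
      omega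
  · refine le_trans ?_ (Finset.single_le_sum (fun i _ => hpos i) (Finset.mem_univ i0))
    have h1 : ((m.toNat : ℕ) : ℝ) = ((m : ℤ) : ℝ) := by
      have : ((m.toNat : ℤ) : ℝ) = ((m : ℤ) : ℝ) := by rw [Int.toNat_of_nonneg hm0]
      exact_mod_cast this
    rw [h1]
    have h2 : (0 : ℝ) ≤ 1 / (1 + (b i0 : ℝ)) ^ 3 := by
      have : (0 : ℝ) ≤ (b i0 : ℝ) := by exact_mod_cast (hb' i0).1
      positivity
    have h3 : (0 : ℝ) ≤ 1 / (1 + (((n : ℤ) - 1 - b i0 : ℤ) : ℝ)) ^ 3 := by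
      have h5 := (hb' i0).2
      have h4 : 0 ≤ (n : ℤ) - 1 - b i0 := by omega
      have : (0 : ℝ) ≤ (((n : ℤ) - 1 - b i0 : ℤ) : ℝ) := by exact_mod_cast h4
      positivity
    rcases min_choice (b i0) ((n : ℤ) - 1 - b i0) with h | h
    · rw [hm, h]
      linarith
    · rw [hm, h]
      linarith

end R3M

theorem hR3 (hG3 : StG3) (hFin : StFin) (hGcoef : StGcoef) (hBox : StBox) (hBn : StBn) : SR3 := by
  classical
  obtain ⟨d₁, hd₁⟩ := hG3
  refine ⟨max 1 d₁, le_max_left _ _, fun d hd => ⟨2 * d, ?_, fun n _ => ?_⟩⟩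
  · have : 1 ≤ d := (le_max_left _ _).trans hd
    positivity
  have hd1 : 1 ≤ d := (le_max_left _ _).trans hd
  obtain ⟨hZ, hE⟩ := hd₁ d ((le_max_right _ _).trans hd)
  have hp0 : 0 ≤ pH d := Real.sSup_nonneg fun x hx => hx.1
  have hp1 : pH d ≤ 1 := by
    have : pH d ≤ 1 / 2 := Real.sSup_le (fun x hx => hx.2.1) (by norm_num)
    linarith
  have hE' := hE (ES (Bn d n)) (hBn d n).2.2.1
  have key : ∀ b ∈ Bn d n, (Summable fun x : Zd d =>
      |gT (ES (Bn d n)) (pH d) b x - gS d (pH d) (x - b)|) ∧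
      ∑' x : Zd d, |gT (ES (Bn d n)) (pH d) b x - gS d (pH d) (x - b)| ≤
        (1 / 2) * ∑ i : Fin d, (1 / (1 + (b i : ℝ)) ^ 3 +
          1 / (1 + (((n : ℤ) - 1 - b i : ℤ) : ℝ)) ^ 3) := by
    intro b hb
    obtain ⟨R, hR, hR2⟩ := R3M.exists_R hBox hBn hd1 hb
    obtain ⟨h1, h2⟩ := R3M.point hFin hGcoef hBox hBn hp0 hp1 hZ hE' b hR
    refine ⟨h1, h2.trans ?_⟩
    rw [div_eq_mul_one_div]
    exact mul_le_mul_of_nonneg_left hR2 (by norm_num)
  refine ⟨fun b hb => (key b hb).1, ?_⟩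
  refine (Finset.sum_le_sum fun b hb => (key b hb).2).trans ?_
  rw [← Finset.mul_sum, Finset.sum_comm]
  have h3 : ∀ i : Fin d, ∑ b ∈ Bn d n, (1 / (1 + (b i : ℝ)) ^ 3 +
      1 / (1 + (((n : ℤ) - 1 - b i : ℤ) : ℝ)) ^ 3) ≤ 4 * (n : ℝ) ^ (d - 1) := by
    intro i
    rw [Finset.sum_add_distrib]
    rw [R3M.sum_coord d n i (fun j => 1 / (1 + (j : ℝ)) ^ 3),
      R3M.sum_coord d n i (fun j => 1 / (1 + (((n : ℤ) - 1 - j : ℤ) : ℝ)) ^ 3)]
    have h4 := R3M.sum_cube n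
    have h5 := R3M.sum_cube' n
    have h6 : (0 : ℝ) ≤ (n : ℝ) ^ (d - 1) := by positivity
    nlinarith [mul_le_mul_of_nonneg_left h4 h6, mul_le_mul_of_nonneg_left h5 h6]
  calc (1 / 2 : ℝ) * ∑ i : Fin d, ∑ b ∈ Bn d n, (1 / (1 + (b i : ℝ)) ^ 3 +
        1 / (1 + (((n : ℤ) - 1 - b i : ℤ) : ℝ)) ^ 3)
      ≤ (1 / 2 : ℝ) * ∑ _i : Fin d, 4 * (n : ℝ) ^ (d - 1) :=
        mul_le_mul_of_nonneg_left (Finset.sum_le_sum fun i _ => h3 i) (by norm_num)
    _ = 2 * d * (n : ℝ) ^ (d - 1) := by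
        rw [Finset.sum_const, Finset.card_univ, Fintype.card_fin, nsmul_eq_mul]
        ring

end Pool.RG
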