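import Pool.Agent.Helper20.RG.St1

/-!
# Project RG, module SM1: non exotic pairs
-/

set_option autoImplicit false

open MeasureTheory Set Filter Topology
open scoped ENNReal RealInnerProductSpace

namespace Pool.Agent.Helper17.RG

open Pool.Agent.Helper20.RG
open Pool.Agent.Helper68.LM (Pl)

theorem ind_meas_SM1 {O : Set ℝ} (hO : MeasurableSet O) : Measurable (ind O) := by
  unfold ind
  exact measurable_const.indicator hO

theorem ind_nn_SM1 (O : Set ℝ) (t : ℝ) : 0 ≤ ind O t := by
  unfold ind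
  exact indicator_nonneg (fun _ _ => zero_le_one) t

theorem ind_le_SM1 (O : Set ℝ) (t : ℝ) : ind O t ≤ 1 := by
  unfold ind
  exact indicator_le_self' (fun _ _ => zero_le_one) t

theorem ind_int_SM1 {O : Set ℝ} (hO : MeasurableSet O) (d a b : ℝ) :
    IntervalIntegrable (fun r => ind O (d + r)) volume a b := by
  rw [intervalIntegrable_iff]
  refine Measure.integrableOn_of_bounded (M := 1) ?_ ?_ ?_
  · simp
  · exact ((ind_meas_SM1 hO).comp (measurable_const_add d)).aestronglyMeasurable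
  · refine Eventually.of_forall fun r => ?_
    rw [Real.norm_eq_abs, abs_of_nonneg (ind_nn_SM1 O _)]
    exact ind_le_SM1 O _

theorem bL_nn_SM1 (O : Set ℝ) {L : ℝ} (hL : 0 < L) (t : ℝ) : 0 ≤ bL L (ind O) t := by
  unfold bL
  refine mul_nonneg (by positivity) ?_
  exact intervalIntegral.integral_nonneg (by linarith) (fun r _ => ind_nn_SM1 O _)

theorem bL_le_SM1 {O : Set ℝ} (hO : MeasurableSet O) {L : ℝ} (hL : 0 < L) (t : ℝ) :
    bL L (ind O) t ≤ 1 := by
  unfold bL
  have h1 : ∫ r in (-L)..L, ind O (t + r) ≤ ∫ _ in (-L)..L, (1 : ℝ) :=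
    intervalIntegral.integral_mono_on (by linarith) (ind_int_SM1 hO t _ _) (by simp)
      (fun r _ => ind_le_SM1 O _)
  rw [intervalIntegral.integral_const, smul_eq_mul, mul_one] at h1
  have h2 : (1 / (2 * L)) * (∫ r in (-L)..L, ind O (t + r)) ≤ (1 / (2 * L)) * (L - -L) :=
    mul_le_mul_of_nonneg_left h1 (by positivity)
  have h3 : (1 / (2 * L)) * (L - -L) = 1 := by field_simp; ring
  linarith

theorem bL_meas_SM1 {O : Set ℝ} (hO : MeasurableSet O) (L : ℝ) :
    Measurable (bL L (ind O)) := by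
  have hint : ∀ a b : ℝ, IntervalIntegrable (ind O) volume a b := by
    intro a b
    have := ind_int_SM1 hO 0 a b
    simpa using this
  have hc : Continuous (fun t : ℝ => ∫ r in (0 : ℝ)..t, ind O r) :=
    intervalIntegral.continuous_primitive hint 0
  have he : bL L (ind O) = fun t => (1 / (2 * L)) *
      ((∫ r in (0 : ℝ)..(t + L), ind O r) - ∫ r in (0 : ℝ)..(t + -L), ind O r) := by
    funext t
    unfold bL
    rw [intervalIntegral.integral_comp_add_left (fun x => ind O x) t,
      intervalIntegral.integral_interval_sub_left (hint _ _) (hint _ _)]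
  rw [he]
  have h1 : Continuous fun t : ℝ => t + L := by fun_prop
  have h2 : Continuous fun t : ℝ => t + -L := by fun_prop
  exact (continuous_const.mul ((hc.comp h1).sub (hc.comp h2))).measurable

theorem tl_meas_SM1 {O : Set ℝ} (hO : MeasurableSet O) (L : ℝ) :
    Measurable (tl L (ind O)) := by
  unfold tl
  exact (ind_meas_SM1 hO).sub (bL_meas_SM1 hO L)

theorem tl_abs_SM1 {O : Set ℝ} (hO : MeasurableSet O) {L : ℝ} (hL : 0 < L) (t : ℝ) :
    |tl L (ind O) t| ≤ 1 := by
  unfold tl
  have h1 := ind_nn_SM1 O t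
  have h2 := ind_le_SM1 O t
  have h3 := bL_nn_SM1 O hL t
  have h4 := bL_le_SM1 hO hL t
  rw [abs_le]
  constructor <;> linarith

/-- the one dimensional estimate -/
theorem one_SM1 (ψ : ℝ → ℝ) (K c R L : ℝ) (hψ : Measurable ψ) (hK : 0 ≤ K)
    (hlip : ∀ x y, |ψ x - ψ y| ≤ K * |x - y|) (h1 : ∀ x, |ψ x| ≤ 1)
    (hsup : ∀ x, R < |x - c| → ψ x = 0) (hL : 0 < L) {O : Set ℝ} (hO : MeasurableSet O) :
    |∫ ρ, ψ ρ * tl L (ind O) ρ| ≤
      K * L * (volume (O ∩ Icc (c - (R + L)) (c + (R + L)))).toReal := by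
  classical
  set V := (volume (O ∩ Icc (c - (R + L)) (c + (R + L)))).toReal with hV
  have hm := ind_meas_SM1 hO
  -- integrability for bounded functions with the support of ψ
  have hfin : volume (Icc (c - R) (c + R)) ≠ ⊤ := by simp
  have hint : ∀ g : ℝ → ℝ, Measurable g → (∀ x, |g x| ≤ 1) → Integrable (fun ρ => ψ ρ * g ρ) := by
    intro g hg hg1
    have he : (fun ρ => ψ ρ * g ρ) = (Icc (c - R) (c + R)).indicator (fun ρ => ψ ρ * g ρ) := by
      funext x
      rw [indicator_apply]
      split_ifs with h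
      · rfl
      · rw [hsup x, zero_mul]
        by_contra h2
        push Not at h2
        rw [abs_le] at h2
        exact h ⟨by linarith [h2.1], by linarith [h2.2]⟩
    rw [he, integrable_indicator_iff measurableSet_Icc]
    refine Measure.integrableOn_of_bounded (M := 1) hfin (hψ.mul hg).aestronglyMeasurable ?_
    refine Eventually.of_forall fun x => ?_
    rw [Real.norm_eq_abs, abs_mul]
    exact mul_le_one₀ (h1 x) (abs_nonneg _) (hg1 x)
  have hind1 : ∀ x, |ind O x| ≤ 1 := fun x => by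
    rw [abs_of_nonneg (ind_nn_SM1 O x)]; exact ind_le_SM1 O x
  have hbL1 : ∀ x, |bL L (ind O) x| ≤ 1 := fun x => by
    rw [abs_of_nonneg (bL_nn_SM1 O hL x)]; exact bL_le_SM1 hO hL x
  obtain ⟨A, hA⟩ : ∃ A : ℝ → ℝ, A = fun r => ∫ ρ, ψ ρ * ind O (ρ + r) := ⟨_, rfl⟩
  have hintr : ∀ r, Integrable (fun ρ => ψ ρ * ind O (ρ + r)) := fun r =>
    hint (fun ρ => ind O (ρ + r)) (hm.comp (measurable_add_const r)) (fun x => hind1 _)
  -- Fubini
  have hprod : Integrable (fun q : ℝ × ℝ => ψ q.1 * ind O (q.1 + q.2))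
      (volume.prod (volume.restrict (Ioc (-L) L))) := by
    have hb : Integrable (fun q : ℝ × ℝ => |ψ q.1| * 1)
        (volume.prod (volume.restrict (Ioc (-L) L))) := by
      apply Integrable.mul_prod (f := fun x : ℝ => |ψ x|) (g := fun _ : ℝ => (1 : ℝ))
      · have := (hint (fun _ => 1) measurable_const (by simp)).abs
        simpa using this
      · exact integrable_const 1
    refine hb.mono' ?_ ?_
    · exact ((hψ.comp measurable_fst).mul (hm.comp (measurable_fst.add measurable_snd))).aestronglyMeasurable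
    · refine Eventually.of_forall fun q => ?_
      rw [Real.norm_eq_abs, abs_mul]
      exact mul_le_mul_of_nonneg_left (hind1 _) (abs_nonneg _)
  have hfub : ∫ ρ, ψ ρ * bL L (ind O) ρ = (1 / (2 * L)) * ∫ r in (-L)..L, A r := by
    have e1 : ∀ ρ, ψ ρ * bL L (ind O) ρ =
        (1 / (2 * L)) * ∫ r in Ioc (-L) L, ψ ρ * ind O (ρ + r) := by
      intro ρ
      unfold bL
      rw [intervalIntegral.integral_of_le (by linarith), integral_const_mul]
      ring
    simp_rw [e1]
    rw [integral_const_mul, intervalIntegral.integral_of_le (by linarith), hA]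
    congr 1
    exact integral_integral_swap hprod
  have hAint : IntervalIntegrable A volume (-L) L := by
    rw [intervalIntegrable_iff_integrableOn_Ioc_of_le (by linarith), hA]
    exact hprod.integral_prod_right
  -- the difference
  have hdiff : ∀ r, |r| ≤ L → |A 0 - A r| ≤ K * L * V := by
    intro r hr
    have e1 : A r = ∫ ρ, ψ (ρ - r) * ind O ρ := by
      rw [hA]
      have := integral_add_right_eq_self (μ := volume) (fun ρ => ψ (ρ - r) * ind O ρ) r
      rw [← this]
      simp only [add_sub_cancel_right]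
    have e2 : A 0 = ∫ ρ, ψ ρ * ind O ρ := by rw [hA]; simp
    have i1 : Integrable (fun ρ => ψ ρ * ind O ρ) := by
      have := hintr 0
      simpa using this
    have i2 : Integrable (fun ρ => ψ (ρ - r) * ind O ρ) := by
      have := (hintr r).comp_sub_right r
      simpa using this
    rw [e1, e2, ← integral_sub i1 i2]
    have hbd : ∀ ρ, ‖ψ ρ * ind O ρ - ψ (ρ - r) * ind O ρ‖ ≤
        (O ∩ Icc (c - (R + L)) (c + (R + L))).indicator (fun _ => K * L) ρ := by
      intro ρ
      rw [← sub_mul, Real.norm_eq_abs, abs_mul, abs_of_nonneg (ind_nn_SM1 O ρ)]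
      rw [indicator_apply]
      split_ifs with h
      · have h2 : |ψ ρ - ψ (ρ - r)| ≤ K * L := by
          refine (hlip _ _).trans ?_
          have : ρ - (ρ - r) = r := by ring
          rw [this]
          exact mul_le_mul_of_nonneg_left hr hK
        calc |ψ ρ - ψ (ρ - r)| * ind O ρ ≤ (K * L) * 1 :=
              mul_le_mul h2 (ind_le_SM1 O ρ) (ind_nn_SM1 O ρ) (by positivity)
          _ = K * L := mul_one _
      · by_cases hρ : ρ ∈ O
        · have h3 : ρ ∉ Icc (c - (R + L)) (c + (R + L)) := fun h4 => h ⟨hρ, h4⟩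
          have h5 : R + L < |ρ - c| := by
            by_contra h6
            push Not at h6
            rw [abs_le] at h6
            exact h3 ⟨by linarith [h6.1], by linarith [h6.2]⟩
          have h7 : ψ ρ = 0 := hsup ρ (by linarith)
          have h8 : ψ (ρ - r) = 0 := by
            apply hsup
            have h9 : |ρ - c| ≤ |ρ - r - c| + |r| := by
              have : ρ - c = (ρ - r - c) + r := by ring
              rw [this]
              exact abs_add_le _ _
            linarith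
          rw [h7, h8]
          simp
        · have : ind O ρ = 0 := by
            unfold ind
            exact indicator_of_notMem hρ _
          rw [this, mul_zero]
    have hfin2 : volume (O ∩ Icc (c - (R + L)) (c + (R + L))) ≠ ⊤ :=
      ne_top_of_le_ne_top (by simp) (measure_mono (inter_subset_right))
    have hms : MeasurableSet (O ∩ Icc (c - (R + L)) (c + (R + L))) := hO.inter measurableSet_Icc
    have hbi : Integrable ((O ∩ Icc (c - (R + L)) (c + (R + L))).indicator (fun _ => K * L)) := by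
      rw [integrable_indicator_iff hms]
      exact integrableOn_const (hs := hfin2) (hC := enorm_ne_top)
    have h10 := norm_integral_le_of_norm_le hbi (Eventually.of_forall hbd)
    rw [integral_indicator_const _ hms, smul_eq_mul] at h10
    rw [Real.norm_eq_abs] at h10
    have h11 : volume.real (O ∩ Icc (c - (R + L)) (c + (R + L))) = V := rfl
    rw [h11] at h10
    linarith
  -- conclusion
  have e3 : ∫ ρ, ψ ρ * tl L (ind O) ρ = (1 / (2 * L)) * ∫ r in (-L)..L, (A 0 - A r) := by
    have e4 : ∀ ρ, ψ ρ * tl L (ind O) ρ = ψ ρ * ind O ρ - ψ ρ * bL L (ind O) ρ := by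
      intro ρ; unfold tl; ring
    simp_rw [e4]
    rw [integral_sub (hint _ hm hind1) (hint _ (bL_meas_SM1 hO L) hbL1), hfub,
      intervalIntegral.integral_sub (by simp) hAint, intervalIntegral.integral_const, smul_eq_mul]
    have e5 : A 0 = ∫ ρ, ψ ρ * ind O ρ := by rw [hA]; simp
    rw [← e5]
    field_simp
    ring
  rw [e3, abs_mul, abs_of_pos (by positivity : 0 < 1 / (2 * L))]
  have h12 : ‖∫ r in (-L)..L, (A 0 - A r)‖ ≤ (K * L * V) * |L - -L| := by
    apply intervalIntegral.norm_integral_le_of_norm_le_const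
    intro r hr
    rw [uIoc_of_le (by linarith)] at hr
    rw [Real.norm_eq_abs]
    apply hdiff
    rw [abs_le]
    exact ⟨hr.1.le, hr.2⟩
  rw [Real.norm_eq_abs] at h12
  have h13 : |L - -L| = 2 * L := by
    rw [abs_of_pos (by linarith)]; ring
  rw [h13] at h12
  calc 1 / (2 * L) * |∫ r in (-L)..L, (A 0 - A r)| ≤ 1 / (2 * L) * ((K * L * V) * (2 * L)) :=
        mul_le_mul_of_nonneg_left h12 (by positivity)
    _ = K * L * V := by field_simp

theorem c1_nn_SM1 (t : ℝ) : 0 ≤ c1 t := le_max_left _ _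

theorem c1_le_SM1 (t : ℝ) : c1 t ≤ 1 := by
  unfold c1
  exact max_le zero_le_one (min_le_left _ _)

private theorem c1_lip_aux_SM1 (t t' : ℝ) : c1 t ≤ c1 t' + |t - t'| := by
  have h0 := abs_nonneg (t - t')
  have h1 := c1_nn_SM1 t'
  have h2 : |t'| ≤ |t| + |t - t'| := by
    have : t' = t - (t - t') := by ring
    calc |t'| = |t - (t - t')| := by rw [← this]
      _ ≤ |t| + |t - t'| := abs_sub _ _
  have h3 : min 1 (2 - |t'|) ≤ c1 t' := by
    unfold c1
    exact le_max_right _ _
  unfold c1 at h1 ⊢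
  refine max_le (by unfold c1 at h3; linarith) ?_
  rcases le_total 1 (2 - |t'|) with h | h
  · rw [min_eq_left h] at h3
    have := min_le_left 1 (2 - |t|)
    unfold c1 at h3
    linarith
  · rw [min_eq_right h] at h3
    have := min_le_right 1 (2 - |t|)
    unfold c1 at h3
    linarith

theorem c1_lip_SM1 (t t' : ℝ) : |c1 t - c1 t'| ≤ |t - t'| := by
  rw [abs_le]
  constructor
  · have := c1_lip_aux_SM1 t' t
    rw [abs_sub_comm] at this
    linarith
  · have := c1_lip_aux_SM1 t t'
    linarith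

theorem c1_zero_SM1 (t : ℝ) (h : 2 ≤ |t|) : c1 t = 0 := by
  unfold c1
  apply max_eq_left
  exact (min_le_right _ _).trans (by linarith)

theorem c1_meas_SM1 : Measurable c1 := by
  unfold c1
  fun_prop

theorem coord_meas_SM1 (i : Fin 2) : Measurable (fun y : Pl => y i) := by
  have : Continuous (fun y : Pl => y i) := by fun_prop
  exact this.measurable

theorem pr_meas_SM1 (s : ℝ) : Measurable (fun y : Pl => pr s y) := by
  unfold pr
  exact (coord_meas_SM1 1).sub ((coord_meas_SM1 0).const_mul s)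

theorem cut_meas_SM1 (z : Pl) (L₂ : ℝ) : Measurable (cut z L₂) := by
  unfold cut
  exact (c1_meas_SM1.comp (((coord_meas_SM1 0).sub_const _).div_const _)).mul
    (c1_meas_SM1.comp (((coord_meas_SM1 1).sub_const _).div_const _))

theorem cut_nn_SM1 (z : Pl) (L₂ : ℝ) (y : Pl) : 0 ≤ cut z L₂ y :=
  mul_nonneg (c1_nn_SM1 _) (c1_nn_SM1 _)

theorem cut_le_SM1 (z : Pl) (L₂ : ℝ) (y : Pl) : cut z L₂ y ≤ 1 :=
  mul_le_one₀ (c1_le_SM1 _) (c1_nn_SM1 _) (c1_le_SM1 _)

theorem cut_supp_SM1 (z : Pl) {L₂ : ℝ} (hL : 0 < L₂) (y : Pl) (h : cut z L₂ y ≠ 0) :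
    |y 0 - z 0| ≤ 2 * L₂ ∧ |y 1 - z 1| ≤ 2 * L₂ := by
  unfold cut at h
  have h0 : c1 ((y 0 - z 0) / L₂) ≠ 0 := left_ne_zero_of_mul h
  have h1 : c1 ((y 1 - z 1) / L₂) ≠ 0 := right_ne_zero_of_mul h
  constructor
  · by_contra h2
    push Not at h2
    apply h0
    apply c1_zero_SM1
    rw [abs_div, abs_of_pos hL, le_div_iff₀ hL]
    exact h2.le
  · by_contra h2
    push Not at h2
    apply h1
    apply c1_zero_SM1
    rw [abs_div, abs_of_pos hL, le_div_iff₀ hL]
    exact h2.le

theorem hSM1 (hPT : StPT) : StSM1 := by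
  intro s s' α L L₂ z O O' hs hs' hα hα1 hαs hL hL2 hO hO'
  obtain ⟨hpt, -, -, -, hptc, -, hint2, hsq⟩ := hPT
  have hL₂ : 0 < L₂ := by linarith
  obtain ⟨D, hD⟩ : ∃ D : ℝ, D = s' - s := ⟨_, rfl⟩
  have hDα : α < |D| := by rw [hD, abs_sub_comm]; exact hαs
  have hD0 : 0 < |D| := by linarith
  have hDne : D ≠ 0 := abs_pos.1 hD0
  set V := (volume (O ∩ Icc (pr s z - 41 / 10 * L₂) (pr s z + 41 / 10 * L₂))).toReal with hV
  have hV0 : 0 ≤ V := ENNReal.toReal_nonneg
  obtain ⟨f, hf⟩ : ∃ f : Pl → ℝ, f = fun y => cut z L₂ y *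
    (tl L (ind O) (pr s y) * tl L (ind O') (pr s' y)) := ⟨_, rfl⟩
  have hfm : Measurable f := by
    rw [hf]
    exact (cut_meas_SM1 z L₂).mul (((tl_meas_SM1 hO L).comp (pr_meas_SM1 s)).mul
      ((tl_meas_SM1 hO' L).comp (pr_meas_SM1 s')))
  have hf1 : ∀ y, |f y| ≤ 1 := by
    intro y
    rw [hf]
    show |cut z L₂ y * (tl L (ind O) (pr s y) * tl L (ind O') (pr s' y))| ≤ 1
    rw [abs_mul, abs_mul, abs_of_nonneg (cut_nn_SM1 z L₂ y)]
    exact mul_le_one₀ (cut_le_SM1 z L₂ y) (by positivity)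
      (mul_le_one₀ (tl_abs_SM1 hO hL _) (abs_nonneg _) (tl_abs_SM1 hO' hL _))
  have hfs : ∀ y, f y ≠ 0 → |y 0 - z 0| ≤ 2 * L₂ ∧ |y 1 - z 1| ≤ 2 * L₂ := by
    intro y hy
    apply cut_supp_SM1 z hL₂
    intro h0
    apply hy
    rw [hf]
    show cut z L₂ y * _ = 0
    rw [h0, zero_mul]
  have hfint : Integrable f := by
    obtain ⟨hm, hv⟩ := hsq z (2 * L₂) (by linarith)
    have he : f = (Sq z (2 * L₂)).indicator f := by
      funext y
      by_cases hy : f y = 0
      · by_cases h : y ∈ Sq z (2 * L₂)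
        · rw [indicator_of_mem h]
        · rw [indicator_of_notMem h, hy]
      · rw [indicator_of_mem]
        exact hfs y hy
    rw [he, integrable_indicator_iff hm]
    refine Measure.integrableOn_of_bounded (M := 1) ?_ hfm.aestronglyMeasurable ?_
    · rw [hv]; exact ENNReal.ofReal_ne_top
    · exact Eventually.of_forall fun y => by rw [Real.norm_eq_abs]; exact hf1 y
  -- coordinates
  obtain ⟨G, hG⟩ : ∃ G : ℝ → ℝ → ℝ, G = fun a σ => f (pt a (σ + s' * a)) := ⟨_, rfl⟩
  have hI1 : ∫ y, f y = ∫ a : ℝ, ∫ σ : ℝ, G a σ := by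
    rw [hint2 f hfint]
    apply integral_congr_ae
    refine Eventually.of_forall fun a => ?_
    show ∫ b : ℝ, f (pt a b) = ∫ σ : ℝ, G a σ
    rw [← integral_add_right_eq_self (fun b => f (pt a b)) (s' * a), hG]
  have hGval : ∀ a σ, G a σ = cut z L₂ (pt a (σ + s' * a)) *
      (tl L (ind O) (σ + D * a) * tl L (ind O') σ) := by
    intro a σ
    rw [hG, hf]
    show cut z L₂ (pt a (σ + s' * a)) * (tl L (ind O) (pr s (pt a (σ + s' * a))) *
      tl L (ind O') (pr s' (pt a (σ + s' * a)))) = _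
    have e1 : pr s (pt a (σ + s' * a)) = σ + D * a := by
      unfold pr
      rw [(hpt _ _).1, (hpt _ _).2, hD]
      ring
    have e2 : pr s' (pt a (σ + s' * a)) = σ := by
      unfold pr
      rw [(hpt _ _).1, (hpt _ _).2]
      ring
    rw [e1, e2]
  have hGs : ∀ a σ, G a σ ≠ 0 → |a - z 0| ≤ 2 * L₂ ∧ |σ - pr s' z| ≤ 4 * L₂ := by
    intro a σ h
    rw [hG] at h
    obtain ⟨h1, h2⟩ := hfs _ h
    rw [(hpt _ _).1] at h1
    rw [(hpt _ _).2] at h2
    refine ⟨h1, ?_⟩
    unfold pr
    have e : σ - (z 1 - s' * z 0) = (σ + s' * a - z 1) - s' * (a - z 0) := by ring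
    rw [e]
    have e1 : |s' * (a - z 0)| ≤ 1 * (2 * L₂) := by
      rw [abs_mul]
      exact mul_le_mul hs' h1 (abs_nonneg _) zero_le_one
    have e2 := abs_sub (σ + s' * a - z 1) (s' * (a - z 0))
    linarith
  have hGint : Integrable (Function.uncurry G) (volume.prod volume) := by
    have hms : MeasurableSet (Icc (z 0 - 2 * L₂) (z 0 + 2 * L₂) ×ˢ
        Icc (pr s' z - 4 * L₂) (pr s' z + 4 * L₂)) := measurableSet_Icc.prod measurableSet_Icc
    have he : Function.uncurry G = (Icc (z 0 - 2 * L₂) (z 0 + 2 * L₂) ×ˢ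
        Icc (pr s' z - 4 * L₂) (pr s' z + 4 * L₂)).indicator (Function.uncurry G) := by
      funext q
      by_cases hy : Function.uncurry G q = 0
      · by_cases h : q ∈ Icc (z 0 - 2 * L₂) (z 0 + 2 * L₂) ×ˢ
            Icc (pr s' z - 4 * L₂) (pr s' z + 4 * L₂)
        · rw [indicator_of_mem h]
        · rw [indicator_of_notMem h, hy]
      · rw [indicator_of_mem]
        obtain ⟨h1, h2⟩ := hGs q.1 q.2 hy
        rw [abs_le] at h1 h2
        exact ⟨⟨by linarith [h1.1], by linarith [h1.2]⟩, ⟨by linarith [h2.1], by linarith [h2.2]⟩⟩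
    rw [he, integrable_indicator_iff hms]
    refine Measure.integrableOn_of_bounded (M := 1) ?_ ?_ ?_
    · rw [Measure.prod_prod]
      exact ENNReal.mul_ne_top (by simp) (by simp)
    · rw [hG]
      have hc : Continuous (fun q : ℝ × ℝ => pt q.1 (q.2 + s' * q.1)) :=
        hptc.comp (by fun_prop : Continuous fun q : ℝ × ℝ => (q.1, q.2 + s' * q.1))
      exact (hfm.comp hc.measurable).aestronglyMeasurable
    · refine Eventually.of_forall fun q => ?_
      rw [Real.norm_eq_abs, hG]
      exact hf1 _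
  have hI2 : ∫ y, f y = ∫ σ : ℝ, ∫ a : ℝ, G a σ := by
    rw [hI1]
    exact integral_integral_swap hGint
  -- the inner integral
  have hin : ∀ σ, |∫ a : ℝ, G a σ| ≤ α⁻¹ * (2 * L / (α * L₂) * V) := by
    intro σ
    obtain ⟨ψ, hψ⟩ : ∃ ψ : ℝ → ℝ, ψ = fun ρ => cut z L₂ (pt ((ρ - σ) / D) (σ + s' * ((ρ - σ) / D))) :=
      ⟨_, rfl⟩
    have e1 : ∫ a : ℝ, G a σ = |D|⁻¹ * ∫ ρ, G ((ρ - σ) / D) σ := by
      have h1 := integral_sub_right_eq_self (μ := volume) (fun x => G (x / D) σ) σ
      have h2 := Measure.integral_comp_div (fun x => G x σ) D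
      rw [h1, h2, smul_eq_mul, ← mul_assoc, inv_mul_cancel₀ hD0.ne', one_mul]
    have e2 : ∀ ρ, G ((ρ - σ) / D) σ = ψ ρ * tl L (ind O) ρ * tl L (ind O') σ := by
      intro ρ
      rw [hGval, hψ]
      have : σ + D * ((ρ - σ) / D) = ρ := by field_simp; ring
      rw [this]
      ring
    simp_rw [e2] at e1
    rw [integral_mul_const] at e1
    have hψv : ∀ ρ, ψ ρ = c1 (((ρ - σ) / D - z 0) / L₂) * c1 ((σ + s' * ((ρ - σ) / D) - z 1) / L₂) := by
      intro ρ
      rw [hψ]
      unfold cut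
      simp only [(hpt _ _).1, (hpt _ _).2]
    have hψm : Measurable ψ := by
      have : ψ = fun ρ => c1 (((ρ - σ) / D - z 0) / L₂) * c1 ((σ + s' * ((ρ - σ) / D) - z 1) / L₂) := by
        funext ρ; exact hψv ρ
      rw [this]
      have m1 : Measurable (fun ρ : ℝ => ((ρ - σ) / D - z 0) / L₂) := by fun_prop
      have m2 : Measurable (fun ρ : ℝ => (σ + s' * ((ρ - σ) / D) - z 1) / L₂) := by fun_prop
      exact (c1_meas_SM1.comp m1).mul (c1_meas_SM1.comp m2)
    have hK : 0 ≤ 2 / (α * L₂) := by positivity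
    have hDi : 1 / |D| ≤ 1 / α := one_div_le_one_div_of_le hα hDα.le
    have hlip : ∀ x y, |ψ x - ψ y| ≤ 2 / (α * L₂) * |x - y| := by
      intro x y
      rw [hψv, hψv]
      set a1 := c1 (((x - σ) / D - z 0) / L₂)
      set b1 := c1 ((σ + s' * ((x - σ) / D) - z 1) / L₂)
      set a2 := c1 (((y - σ) / D - z 0) / L₂)
      set b2 := c1 ((σ + s' * ((y - σ) / D) - z 1) / L₂)
      have ha : |a1 - a2| ≤ |x - y| / (α * L₂) := by
        refine (c1_lip_SM1 _ _).trans ?_
        have e : ((x - σ) / D - z 0) / L₂ - ((y - σ) / D - z 0) / L₂ = (x - y) / (D * L₂) := by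
          field_simp; ring
        rw [e, abs_div, abs_mul, abs_of_pos hL₂]
        apply div_le_div_of_nonneg_left (abs_nonneg _) (by positivity)
        exact mul_le_mul_of_nonneg_right hDα.le hL₂.le
      have hb : |b1 - b2| ≤ |x - y| / (α * L₂) := by
        refine (c1_lip_SM1 _ _).trans ?_
        have e : (σ + s' * ((x - σ) / D) - z 1) / L₂ - (σ + s' * ((y - σ) / D) - z 1) / L₂ =
            s' * ((x - y) / (D * L₂)) := by
          field_simp; ring
        rw [e, abs_mul, abs_div, abs_mul, abs_of_pos hL₂]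
        have h1 : |x - y| / (|D| * L₂) ≤ |x - y| / (α * L₂) := by
          apply div_le_div_of_nonneg_left (abs_nonneg _) (by positivity)
          exact mul_le_mul_of_nonneg_right hDα.le hL₂.le
        calc |s'| * (|x - y| / (|D| * L₂)) ≤ 1 * (|x - y| / (α * L₂)) :=
              mul_le_mul hs' h1 (by positivity) zero_le_one
          _ = _ := one_mul _
      have e3 : a1 * b1 - a2 * b2 = a1 * (b1 - b2) + (a1 - a2) * b2 := by ring
      rw [e3]
      have h1 : |a1 * (b1 - b2)| ≤ |x - y| / (α * L₂) := by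
        rw [abs_mul, abs_of_nonneg (c1_nn_SM1 _)]
        calc a1 * |b1 - b2| ≤ 1 * (|x - y| / (α * L₂)) :=
              mul_le_mul (c1_le_SM1 _) hb (abs_nonneg _) zero_le_one
          _ = _ := one_mul _
      have h2 : |(a1 - a2) * b2| ≤ |x - y| / (α * L₂) := by
        rw [abs_mul, abs_of_nonneg (c1_nn_SM1 (_ : ℝ))]
        calc |a1 - a2| * b2 ≤ (|x - y| / (α * L₂)) * 1 :=
              mul_le_mul ha (c1_le_SM1 _) (c1_nn_SM1 _) (by positivity)
          _ = _ := mul_one _
      have h3 := abs_add_le (a1 * (b1 - b2)) ((a1 - a2) * b2)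
      have h4 : 2 / (α * L₂) * |x - y| = |x - y| / (α * L₂) + |x - y| / (α * L₂) := by ring
      rw [h4]
      linarith
    have hψ1 : ∀ x, |ψ x| ≤ 1 := by
      intro x
      rw [hψ]
      show |cut z L₂ _| ≤ 1
      rw [abs_of_nonneg (cut_nn_SM1 _ _ _)]
      exact cut_le_SM1 _ _ _
    have hψs : ∀ x, 4 * L₂ < |x - pr s z| → ψ x = 0 := by
      intro x hx
      by_contra h
      rw [hψ] at h
      obtain ⟨h1, h2⟩ := cut_supp_SM1 z hL₂ _ h
      rw [(hpt _ _).1] at h1
      rw [(hpt _ _).2] at h2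
      have e : x - pr s z = (σ + s' * ((x - σ) / D) - z 1) - s * ((x - σ) / D - z 0) := by
        unfold pr
        have : x = σ + D * ((x - σ) / D) := by field_simp; ring
        rw [hD] at this ⊢
        linear_combination this
      rw [e] at hx
      have e1 : |s * ((x - σ) / D - z 0)| ≤ 1 * (2 * L₂) := by
        rw [abs_mul]
        exact mul_le_mul hs h1 (abs_nonneg _) zero_le_one
      have e2 := abs_sub (σ + s' * ((x - σ) / D) - z 1) (s * ((x - σ) / D - z 0))
      linarith
    have h1 := one_SM1 ψ (2 / (α * L₂)) (pr s z) (4 * L₂) L hψm hK hlip hψ1 hψs hL hO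
    have h2 : (volume (O ∩ Icc (pr s z - (4 * L₂ + L)) (pr s z + (4 * L₂ + L)))).toReal ≤ V := by
      apply ENNReal.toReal_mono
      · exact ne_top_of_le_ne_top (by simp) (measure_mono (inter_subset_right))
      · apply measure_mono
        apply inter_subset_inter_right
        apply Icc_subset_Icc <;> linarith
    have h3 : |∫ ρ, ψ ρ * tl L (ind O) ρ| ≤ 2 * L / (α * L₂) * V := by
      calc |∫ ρ, ψ ρ * tl L (ind O) ρ| ≤ 2 / (α * L₂) * L * _ := h1
        _ ≤ 2 / (α * L₂) * L * V := mul_le_mul_of_nonneg_left h2 (by positivity)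
        _ = 2 * L / (α * L₂) * V := by ring
    rw [e1, abs_mul, abs_mul, abs_of_nonneg (by positivity : 0 ≤ |D|⁻¹)]
    have h4 : |D|⁻¹ ≤ α⁻¹ := by
      rw [← one_div, ← one_div]; exact hDi
    apply mul_le_mul h4 _ (by positivity) (by positivity)
    calc |∫ ρ, ψ ρ * tl L (ind O) ρ| * |tl L (ind O') σ| ≤ (2 * L / (α * L₂) * V) * 1 :=
          mul_le_mul h3 (tl_abs_SM1 hO' hL _) (abs_nonneg _) (by positivity)
      _ = _ := mul_one _
  have hin0 : ∀ σ, σ ∉ Icc (pr s' z - 4 * L₂) (pr s' z + 4 * L₂) → ∫ a : ℝ, G a σ = 0 := by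
    intro σ hσ
    have : ∀ a, G a σ = 0 := by
      intro a
      by_contra h
      have h2 := (hGs a σ h).2
      rw [abs_le] at h2
      exact hσ ⟨by linarith [h2.1], by linarith [h2.2]⟩
    simp_rw [this]
    simp
  have hbd : ∀ σ, ‖∫ a : ℝ, G a σ‖ ≤ (Icc (pr s' z - 4 * L₂) (pr s' z + 4 * L₂)).indicator
      (fun _ => α⁻¹ * (2 * L / (α * L₂) * V)) σ := by
    intro σ
    by_cases h : σ ∈ Icc (pr s' z - 4 * L₂) (pr s' z + 4 * L₂)
    · rw [indicator_of_mem h, Real.norm_eq_abs]
      exact hin σ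
    · rw [indicator_of_notMem h, hin0 σ h, norm_zero]
  have hbi : Integrable ((Icc (pr s' z - 4 * L₂) (pr s' z + 4 * L₂)).indicator
      (fun _ : ℝ => α⁻¹ * (2 * L / (α * L₂) * V))) := by
    rw [integrable_indicator_iff measurableSet_Icc]
    exact integrableOn_const (hs := by simp) (hC := enorm_ne_top)
  have h10 := norm_integral_le_of_norm_le hbi (Eventually.of_forall hbd)
  rw [integral_indicator_const _ measurableSet_Icc, smul_eq_mul, Real.norm_eq_abs, ← hI2] at h10
  have h11 : volume.real (Icc (pr s' z - 4 * L₂) (pr s' z + 4 * L₂)) = 8 * L₂ := by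
    rw [Real.volume_real_Icc_of_le (by linarith)]
    ring
  rw [h11] at h10
  have hgoal : |∫ y : Pl, f y| ≤ 32 * L / α ^ 2 * V := by
    refine h10.trans ?_
    have e : 8 * L₂ * (α⁻¹ * (2 * L / (α * L₂) * V)) = 16 * L / α ^ 2 * V := by
      field_simp
      ring
    rw [e]
    apply mul_le_mul_of_nonneg_right _ hV0
    apply div_le_div_of_nonneg_right _ (by positivity)
    linarith
  rw [hf] at hgoal
  exact hgoal

end Pool.Agent.Helper17.RG
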